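import Pool.Agent.H612.QF

/-!
# Affine projections of polynomials: the decision problem
-/

namespace Pool.Agent.TH662.AP

open Pool.Agent.NPC Pool.Agent.NPC.H612

/-- The polynomial `f` is an affine projection of the polynomial `g`: there are a real `n × n`
matrix `A` (not necessarily invertible) and a real vector `b` with `f(x) = g(A x + b)` for all
`x ∈ ℝⁿ`. -/
def IsAffineProjection (n : ℕ) (f g : PolyData) : Prop :=
  ∃ (A : Matrix (Fin n) (Fin n) ℝ) (b : Fin n → ℝ),
    ∀ x : Fin n → ℝ, pval x f = pval (A.mulVec x + b) g

/-- The same with `b = 0`. -/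
def IsLinearProjection (n : ℕ) (f g : PolyData) : Prop :=
  ∃ A : Matrix (Fin n) (Fin n) ℝ, ∀ x : Fin n → ℝ, pval x f = pval (A.mulVec x) g

/-- The decision problem **affine polynomial projection**: given the number `n` of variables and
two polynomials `f`, `g` in `n` variables with integer coefficients, is `f` an affine projection
of `g`? -/
def AffineProjection (a : ℕ × PolyData × PolyData) : Prop :=
  a.2.1.Valid a.1 ∧ a.2.2.Valid a.1 ∧ IsAffineProjection a.1 a.2.1 a.2.2

end Pool.Agent.TH662.AP
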