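import Pool.Agent.TH662.AP.Defs
import Pool.Agent.H78R3.TSV.Time
import Pool.Agent.H612.CollectPoly

/-!
# The affine projection problem is hard for the existential theory of the reals
-/

set_option maxHeartbeats 400000

namespace Pool.Agent.TH662.AP

open Finset Pool.Agent.NPC Pool.Agent.NPC.ER Pool.Agent.NPC.H612 Pool.Agent.H78R3.TSV

/-! ### Raw polynomials -/

/-- Product of raw polynomials. -/
def rawMul (R R' : List (Bool × List ℕ)) : List (Bool × List ℕ) :=
  R.flatMap fun p => R'.map fun q => (p.1 ^^ q.1, p.2 ++ q.2)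

theorem rawEval_append (y : ℕ → ℝ) (R R' : List (Bool × List ℕ)) :
    rawEval y (R ++ R') = rawEval y R + rawEval y R' := by
  simp [rawEval]

theorem rawEval_mul (y : ℕ → ℝ) (R R' : List (Bool × List ℕ)) :
    rawEval y (rawMul R R') = rawEval y R * rawEval y R' := by
  induction R with
  | nil => simp [rawEval, rawMul]
  | cons p R ih =>
    have h : rawMul (p :: R) R' = (R'.map fun q => (p.1 ^^ q.1, p.2 ++ q.2)) ++ rawMul R R' := rfl
    rw [h, rawEval_append, ih]
    have h2 : rawEval y (p :: R) = (sgn p.1 : ℝ) * (p.2.map y).prod + rawEval y R := by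
      simp [rawEval]
    rw [h2, add_mul]
    congr 1
    clear ih h h2
    induction R' with
    | nil => simp [rawEval]
    | cons q R' ih =>
      have h3 : rawEval y (q :: R') = (sgn q.1 : ℝ) * (q.2.map y).prod + rawEval y R' := by
        simp [rawEval]
      have h4 : ∀ (a : Bool × List ℕ) (l : List (Bool × List ℕ)),
          rawEval y (a :: l) = (sgn a.1 : ℝ) * (a.2.map y).prod + rawEval y l := by
        intro a l; simp [rawEval]
      rw [List.map_cons, h4, ih, h3]
      have h5 : ((sgn (p.1 ^^ q.1) : ℤ) : ℝ) = (sgn p.1 : ℝ) * (sgn q.1 : ℝ) := by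
        cases p.1 <;> cases q.1 <;> simp [sgn]
      simp only [h5, List.map_append, List.prod_append]
      ring

theorem rawEval_flatMap {α : Type} (y : ℕ → ℝ) (l : List α) (F : α → List (Bool × List ℕ)) :
    rawEval y (l.flatMap F) = (l.map fun a => rawEval y (F a)).sum := by
  induction l with
  | nil => simp [rawEval]
  | cons a l ih => rw [List.flatMap_cons, rawEval_append, ih]; simp

/-- The raw polynomial of a term `c x_i x_j` with `|c| ≤ 8`. -/
def rawT (t : QT) : List (Bool × List ℕ) :=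
  ((List.range 8).filter fun r => decide (r < t.1.natAbs)).map fun _ =>
    (decide (t.1 < 0), [t.2.1, t.2.2])

theorem rawEval_rawT (y : ℕ → ℝ) (t : QT) (ht : t.1.natAbs ≤ 8) :
    rawEval y (rawT t) = (t.1 : ℝ) * (y t.2.1 * y t.2.2) := by
  obtain ⟨c, i, j⟩ := t
  simp only at ht
  have h1 : ∀ (l : List ℕ) (b : Bool), rawEval y (l.map fun _ => (b, [i, j])) =
      (l.length : ℝ) * ((sgn b : ℝ) * (y i * y j)) := by
    intro l b
    induction l with
    | nil => simp [rawEval]
    | cons a l ih =>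
      have h4 : ∀ (a : Bool × List ℕ) (l : List (Bool × List ℕ)),
          rawEval y (a :: l) = (sgn a.1 : ℝ) * (a.2.map y).prod + rawEval y l := by
        intro a l; simp [rawEval]
      rw [List.map_cons, h4, ih]
      simp
      ring
  have h2 : ∀ m w : ℕ, w ≤ m → ((List.range m).filter fun r => decide (r < w)).length = w := by
    intro m w hw
    induction m with
    | zero => simp [Nat.le_zero.1 hw]
    | succ m ih =>
      rw [List.range_succ, List.filter_append, List.length_append]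
      rcases Nat.lt_or_ge m w with h | h
      · have hw' : w = m + 1 := by omega
        subst hw'
        have h3 : (List.range m).filter (fun r => decide (r < m + 1)) = List.range m := by
          rw [List.filter_eq_self]
          intro a ha
          have := List.mem_range.1 ha
          simp; omega
        rw [h3]
        simp
      · rw [ih h]
        simp [h]
  unfold rawT
  simp only
  rw [h1, h2 8 _ ht]
  rcases lt_or_ge c 0 with h | h
  · have h3 : ((c.natAbs : ℕ) : ℝ) = -(c : ℝ) := by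
      rw [Nat.cast_natAbs]
      push_cast
      rw [abs_of_neg (by exact_mod_cast h)]
    rw [h3]
    simp [sgn, h]
  · have h3 : ((c.natAbs : ℕ) : ℝ) = (c : ℝ) := by
      rw [Nat.cast_natAbs]
      push_cast
      rw [abs_of_nonneg (by exact_mod_cast h)]
    rw [h3]
    have h4 : ¬ c < 0 := not_lt.2 h
    simp [sgn, h4]

/-- The raw polynomial of a quadratic constraint. -/
def rawC (g : QC) : List (Bool × List ℕ) := rawT g.1 ++ rawT g.2.1 ++ rawT g.2.2

theorem rawEval_rawC (y : ℕ → ℝ) (n : ℕ) (g : QC) (hg : GOk n g) :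
    rawEval y (rawC g) = gev y y g / 2 := by
  obtain ⟨⟨a1, -, -⟩, ⟨b1, -, -⟩, ⟨c1, -, -⟩⟩ := hg
  unfold rawC
  rw [rawEval_append, rawEval_append, rawEval_rawT y _ a1, rawEval_rawT y _ b1,
    rawEval_rawT y _ c1]
  unfold gev tev bev
  ring

/-- The raw polynomial `∑ g_l(y)² + t² ∑ y_i²`, where `t` is the variable number `n`. -/
def rawG (n : ℕ) (G : List QC) : List (Bool × List ℕ) :=
  (G.flatMap fun g => rawMul (rawC g) (rawC g)) ++
    (List.range n).map fun i => (false, [i, i, n, n])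

theorem rawEval_rawG (y : ℕ → ℝ) (n : ℕ) (G : List QC) (hG : ∀ g ∈ G, GOk n g) :
    rawEval y (rawG n G) = (G.map fun g => (gev y y g / 2) ^ 2).sum +
      y n ^ 2 * ∑ i ∈ range n, y i ^ 2 := by
  unfold rawG
  rw [rawEval_append, rawEval_flatMap]
  congr 1
  · congr 1
    apply List.map_congr_left
    intro g hg
    rw [rawEval_mul, rawEval_rawC y n g (hG g hg), sq]
  · have h2 : ∀ (m : ℕ) (ψ : ℕ → ℝ), ((List.range m).map ψ).sum = ∑ i ∈ range m, ψ i := by
      intro m ψ
      induction m with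
      | zero => simp
      | succ m ih => simp [List.range_succ, Finset.sum_range_succ, ih]
    unfold rawEval
    rw [List.map_map, h2, Finset.mul_sum]
    apply Finset.sum_congr rfl
    intro i _
    simp [sgn]
    ring

theorem mem_rawT {t : QT} {p : Bool × List ℕ} (hp : p ∈ rawT t) : p.2 = [t.2.1, t.2.2] := by
  unfold rawT at hp
  rw [List.mem_map] at hp
  obtain ⟨_, _, rfl⟩ := hp
  rfl

theorem mem_rawC {n : ℕ} {g : QC} (hg : GOk n g) {p : Bool × List ℕ} (hp : p ∈ rawC g) :
    p.2.length = 2 ∧ ∀ i ∈ p.2, i < n := by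
  obtain ⟨⟨-, a2, a3⟩, ⟨-, b2, b3⟩, ⟨-, c2, c3⟩⟩ := hg
  unfold rawC at hp
  rw [List.mem_append, List.mem_append] at hp
  rcases hp with (hp | hp) | hp
  · rw [mem_rawT hp]; simp [a2, a3]
  · rw [mem_rawT hp]; simp [b2, b3]
  · rw [mem_rawT hp]; simp [c2, c3]

theorem mem_rawG {n : ℕ} {G : List QC} (hG : ∀ g ∈ G, GOk n g) {p : Bool × List ℕ}
    (hp : p ∈ rawG n G) : p.2.length = 4 ∧ ∀ i ∈ p.2, i < n + 1 := by
  unfold rawG at hp
  rw [List.mem_append, List.mem_flatMap, List.mem_map] at hp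
  rcases hp with ⟨g, hg, hp⟩ | ⟨i, hi, rfl⟩
  · unfold rawMul at hp
    rw [List.mem_flatMap] at hp
    obtain ⟨a, ha, hp⟩ := hp
    rw [List.mem_map] at hp
    obtain ⟨b, hb, rfl⟩ := hp
    obtain ⟨h1, h2⟩ := mem_rawC (hG g hg) ha
    obtain ⟨h3, h4⟩ := mem_rawC (hG g hg) hb
    refine ⟨by simp [h1, h3], fun i hi => ?_⟩
    rcases List.mem_append.1 hi with hi | hi
    · exact Nat.lt_succ_of_lt (h2 i hi)
    · exact Nat.lt_succ_of_lt (h4 i hi)
  · have hi := List.mem_range.1 hi
    refine ⟨rfl, fun j hj => ?_⟩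
    simp at hj
    omega

/-! ### Homogeneous polynomials -/

theorem vval_smul {n : ℕ} (x : Fin n → ℝ) (c : ℝ) (e : List ℕ) (he : e.length = n) :
    vval (c • x) e = c ^ e.sum * vval x e := by
  unfold vval
  simp only [Pi.smul_apply, smul_eq_mul, mul_pow, Finset.prod_mul_distrib]
  congr 1
  rw [Finset.prod_pow_eq_pow_sum]
  congr 1
  subst he
  simp [Fin.sum_univ_def, List.getD_eq_getElem?_getD]

theorem pval_smul {n d : ℕ} (g : PolyData) (hv : g.Valid n) (hd : ∀ t ∈ g, t.2.sum = d)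
    (x : Fin n → ℝ) (c : ℝ) : pval (c • x) g = c ^ d * pval x g := by
  unfold pval
  rw [aeval_toPoly, aeval_toPoly, ← List.sum_map_mul_left]
  congr 1
  apply List.map_congr_left
  intro t ht
  rw [vval_smul x c t.2 (hv.1 t ht).2, hd t ht]
  ring

/-- For homogeneous polynomials of the same degree, an affine projection is a linear one. -/
theorem linear_of_affine {n d : ℕ} (f g : PolyData) (hf : f.Valid n) (hg : g.Valid n)
    (hfd : ∀ t ∈ f, t.2.sum = d) (hgd : ∀ t ∈ g, t.2.sum = d)
    (A : Matrix (Fin n) (Fin n) ℝ) (b : Fin n → ℝ)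
    (h : ∀ x : Fin n → ℝ, pval x f = pval (A.mulVec x + b) g) (x : Fin n → ℝ) :
    pval x f = pval (A.mulVec x) g := by
  have h1 : ∀ k : ℕ, pval (A.mulVec x + ((1 : ℝ) / ((k : ℝ) + 1)) • b) g = pval x f := by
    intro k
    set c : ℝ := (k : ℝ) + 1 with hc
    have hc0 : c ≠ 0 := by positivity
    have h2 := h (c • x)
    rw [pval_smul f hf hfd] at h2
    have h3 : A.mulVec (c • x) + b = c • (A.mulVec x + ((1 : ℝ) / c) • b) := by
      rw [Matrix.mulVec_smul, smul_add, smul_smul, mul_one_div_cancel hc0, one_smul]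
    rw [h3, pval_smul g hg hgd] at h2
    exact (mul_left_cancel₀ (pow_ne_zero d hc0) h2).symm
  have h4 : Filter.Tendsto (fun k : ℕ => A.mulVec x + ((1 : ℝ) / ((k : ℝ) + 1)) • b) Filter.atTop
      (nhds (A.mulVec x + (0 : ℝ) • b)) :=
    tendsto_const_nhds.add ((tendsto_one_div_add_atTop_nhds_zero_nat (𝕜 := ℝ)).smul_const b)
  have h5 := ((pval_continuous g).tendsto _).comp h4
  simp only [Function.comp_def, h1] at h5
  have h6 := tendsto_nhds_unique h5 tendsto_const_nhds
  rw [zero_smul, add_zero] at h6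
  exact h6.symm

/-! ### The reduction -/

/-- The polynomial `x₀² x₁²` in `n` variables. -/
def fmon (n : ℕ) : PolyData := collect n [(false, [0, 0, 1, 1])]

theorem pval_fmon {n : ℕ} (hn : 2 ≤ n) (x : Fin n → ℝ) :
    pval x (fmon n) = x ⟨0, by omega⟩ ^ 2 * x ⟨1, by omega⟩ ^ 2 := by
  unfold pval fmon
  rw [aeval_collect _ (by
    intro p hp i hi
    simp at hp
    subst hp
    simp at hi
    omega)]
  simp only [rawEval, sgn, List.map_cons, List.map_nil, List.sum_cons, List.sum_nil,
    List.prod_cons, List.prod_nil, xt]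
  rw [dif_pos (by omega : 0 < n), dif_pos (by omega : 1 < n)]
  norm_num
  ring

theorem fmon_deg {n : ℕ} (hn : 2 ≤ n) : ∀ t ∈ fmon n, t.2.sum = 4 := by
  apply collect_deg
  · intro p hp i hi
    simp at hp
    subst hp
    simp at hi
    omega
  · intro p hp
    simp at hp
    subst hp
    rfl

theorem gev_zero {n : ℕ} {g : QC} (hg : GOk n g) {y : ℕ → ℝ} (hy : ∀ i < n, y i = 0) :
    gev y y g = 0 := by
  obtain ⟨⟨-, a2, a3⟩, ⟨-, b2, b3⟩, ⟨-, c2, c3⟩⟩ := hg
  simp [gev, tev, bev, hy _ a2, hy _ a3, hy _ b2, hy _ b3, hy _ c2, hy _ c3]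

theorem sum_sq_nonneg (G : List QC) (y : ℕ → ℝ) :
    0 ≤ (G.map fun g => (gev y y g / 2) ^ 2).sum := by
  apply List.sum_nonneg
  intro r hr
  rw [List.mem_map] at hr
  obtain ⟨g, _, rfl⟩ := hr
  positivity

theorem all_zero_of_sum {G : List QC} {y : ℕ → ℝ}
    (h : (G.map fun g => (gev y y g / 2) ^ 2).sum = 0) : ∀ g ∈ G, gev y y g = 0 := by
  induction G with
  | nil => simp
  | cons a G ih =>
    rw [List.map_cons, List.sum_cons] at h
    have h1 := sum_sq_nonneg G y
    have h2 : 0 ≤ (gev y y a / 2) ^ 2 := by positivity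
    have h3 : (gev y y a / 2) ^ 2 = 0 := by linarith
    have h4 : (G.map fun g => (gev y y g / 2) ^ 2).sum = 0 := by linarith
    intro g hg
    rcases List.mem_cons.1 hg with rfl | hg
    · have := pow_eq_zero_iff (two_ne_zero) |>.1 h3
      linarith
    · exact ih h4 g hg

theorem pval_rawG {n : ℕ} {G : List QC} (hG : ∀ g ∈ G, GOk n g) (z : Fin (n + 1) → ℝ) :
    pval z (collect (n + 1) (rawG n G)) = (G.map fun g => (gev (xt z) (xt z) g / 2) ^ 2).sum +
      xt z n ^ 2 * ∑ i ∈ range n, xt z i ^ 2 := by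
  unfold pval
  rw [aeval_collect _ (fun p hp => (mem_rawG hG hp).2), rawEval_rawG _ _ _ hG]

/-- The values of a constraint depend on the first variables only. -/
theorem gev_congr {n : ℕ} {g : QC} (hg : GOk n g) {y y' : ℕ → ℝ} (hy : ∀ i < n, y i = y' i) :
    gev y y g = gev y' y' g := by
  obtain ⟨⟨-, a2, a3⟩, ⟨-, b2, b3⟩, ⟨-, c2, c3⟩⟩ := hg
  simp [gev, tev, bev, hy _ a2, hy _ a3, hy _ b2, hy _ b3, hy _ c2, hy _ c3]

/-- A nonzero solution gives a linear projection. -/
theorem proj_of_homSat {n : ℕ} (h1n : 1 ≤ n) {G : List QC} (hG : ∀ g ∈ G, GOk n g)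
    (h : HomSat n G) :
    IsLinearProjection (n + 1) (fmon (n + 1)) (collect (n + 1) (rawG n G)) := by
  obtain ⟨x, hx, hgx⟩ := h
  let A : Matrix (Fin (n + 1)) (Fin (n + 1)) ℝ := fun i j =>
    if (i : ℕ) < n then (if (j : ℕ) = 1 then x i else 0) else (if (j : ℕ) = 0 then 1 else 0)
  refine ⟨A, fun z => ?_⟩
  have hA : ∀ i : Fin (n + 1), A.mulVec z i =
      if (i : ℕ) < n then x i * z ⟨1, by omega⟩ else z ⟨0, by omega⟩ := by
    intro i
    rw [Matrix.mulVec, dotProduct]
    by_cases hi : (i : ℕ) < n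
    · rw [if_pos hi]
      rw [Finset.sum_eq_single (⟨1, by omega⟩ : Fin (n + 1))]
      · simp [A, hi]
      · intro j _ hj
        have : ¬ (j : ℕ) = 1 := fun h => hj (Fin.ext h)
        simp [A, hi, this]
      · intro h; exact absurd (Finset.mem_univ _) h
    · rw [if_neg hi]
      rw [Finset.sum_eq_single (⟨0, by omega⟩ : Fin (n + 1))]
      · simp [A, hi]
      · intro j _ hj
        have : ¬ (j : ℕ) = 0 := fun h => hj (Fin.ext h)
        simp only [A, if_neg hi, if_neg this]
        ring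
      · intro h; exact absurd (Finset.mem_univ _) h
  have hxt : ∀ i < n, xt (A.mulVec z) i = x i * z ⟨1, by omega⟩ := by
    intro i hi
    rw [xt, dif_pos (by omega : i < n + 1), hA]
    simp [hi]
  have hxt2 : xt (A.mulVec z) n = z ⟨0, by omega⟩ := by
    rw [xt, dif_pos (by omega : n < n + 1), hA]
    simp
  rw [pval_fmon (by omega), pval_rawG hG]
  have h1 : (G.map fun g => (gev (xt (A.mulVec z)) (xt (A.mulVec z)) g / 2) ^ 2).sum = 0 := by
    apply List.sum_eq_zero
    intro r hr
    rw [List.mem_map] at hr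
    obtain ⟨g, hg, rfl⟩ := hr
    rw [gev_congr (hG g hg) hxt]
    have h2 : gev (fun i => x i * z ⟨1, by omega⟩) (fun i => x i * z ⟨1, by omega⟩) g =
        z ⟨1, by omega⟩ ^ 2 * gev x x g := by
      unfold gev tev bev
      ring
    rw [h2, hgx g hg]
    ring
  have h2 : ∑ i ∈ range n, xt (A.mulVec z) i ^ 2 = z ⟨1, by omega⟩ ^ 2 := by
    rw [Finset.sum_congr rfl (g := fun i => z ⟨1, by omega⟩ ^ 2 * x i ^ 2)]
    · rw [← Finset.mul_sum, hx, mul_one]
    · intro i hi
      rw [hxt i (Finset.mem_range.1 hi)]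
      ring
  rw [h1, h2, hxt2]
  ring

/-- A linear projection gives a nonzero solution. -/
theorem homSat_of_proj {n : ℕ} (h1n : 1 ≤ n) {G : List QC} (hG : ∀ g ∈ G, GOk n g)
    (h : IsLinearProjection (n + 1) (fmon (n + 1)) (collect (n + 1) (rawG n G))) :
    HomSat n G := by
  obtain ⟨A, hA⟩ := h
  by_contra hno
  have key : ∀ z : Fin (n + 1) → ℝ, z ⟨0, by omega⟩ ^ 2 * z ⟨1, by omega⟩ ^ 2 = 0 →
      ∀ i < n, xt (A.mulVec z) i = 0 := by
    intro z hz
    have h1 := hA z
    rw [pval_fmon (by omega), pval_rawG hG, hz] at h1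
    have h2 := sum_sq_nonneg G (xt (A.mulVec z))
    have h3 : 0 ≤ xt (A.mulVec z) n ^ 2 * ∑ i ∈ range n, xt (A.mulVec z) i ^ 2 :=
      mul_nonneg (sq_nonneg _) (Finset.sum_nonneg fun i _ => sq_nonneg _)
    have h4 := all_zero_of_sum (G := G) (y := xt (A.mulVec z)) (by linarith)
    have h5 : ∑ i ∈ range n, xt (A.mulVec z) i ^ 2 ≤ 0 := by
      by_contra hcon
      push Not at hcon
      exact hno (homSat_of _ hcon h4)
    have h6 : ∑ i ∈ range n, xt (A.mulVec z) i ^ 2 = 0 :=
      le_antisymm h5 (Finset.sum_nonneg fun i _ => sq_nonneg _)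
    rw [Finset.sum_eq_zero_iff_of_nonneg (fun i _ => sq_nonneg _)] at h6
    intro i hi
    exact pow_eq_zero_iff (two_ne_zero) |>.1 (h6 i (Finset.mem_range.2 hi))
  let e0 : Fin (n + 1) → ℝ := fun i => if (i : ℕ) = 0 then 1 else 0
  let e1 : Fin (n + 1) → ℝ := fun i => if (i : ℕ) = 1 then 1 else 0
  have k0 := key e0 (by simp [e0])
  have k1 := key e1 (by simp [e1])
  have k2 : ∀ i < n, xt (A.mulVec (e0 + e1)) i = 0 := by
    intro i hi
    have h0 := k0 i hi
    have h1 := k1 i hi
    rw [xt, dif_pos (by omega : i < n + 1)] at h0 h1 ⊢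
    rw [Matrix.mulVec_add, Pi.add_apply, h0, h1, add_zero]
  have h1 := hA (e0 + e1)
  rw [pval_fmon (by omega), pval_rawG hG] at h1
  have h2 : (G.map fun g => (gev (xt (A.mulVec (e0 + e1))) (xt (A.mulVec (e0 + e1))) g / 2) ^ 2).sum
      = 0 := by
    apply List.sum_eq_zero
    intro r hr
    rw [List.mem_map] at hr
    obtain ⟨g, hg, rfl⟩ := hr
    rw [gev_zero (hG g hg) k2]
    ring
  have h3 : ∑ i ∈ range n, xt (A.mulVec (e0 + e1)) i ^ 2 = 0 := by
    apply Finset.sum_eq_zero
    intro i hi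
    rw [k2 i (Finset.mem_range.1 hi)]
    ring
  rw [h2, h3] at h1
  simp [e0, e1] at h1

/-- An affine projection gives a nonzero solution. -/
theorem homSat_of_affine {n : ℕ} (h1n : 1 ≤ n) {G : List QC} (hG : ∀ g ∈ G, GOk n g)
    (h : IsAffineProjection (n + 1) (fmon (n + 1)) (collect (n + 1) (rawG n G))) :
    HomSat n G := by
  obtain ⟨A, b, hAb⟩ := h
  exact homSat_of_proj h1n hG
    ⟨A, linear_of_affine _ _ (collect_valid _ _) (collect_valid _ _)
      (fmon_deg (Nat.succ_le_succ h1n))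
      (collect_deg _ (fun p hp => (mem_rawG hG hp).2) (fun p hp => (mem_rawG hG hp).1)) A b hAb⟩

end Pool.Agent.TH662.AP
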