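import Pool.Agent.TH662.AP.Main

/-!
# The reduction is computable in polynomial time
-/

set_option maxHeartbeats 400000

namespace Pool.Agent.NPC.TH662AP

open Pool.Agent.NPC Pool.Agent.NPC.ER Pool.Agent.NPC.H612 Pool.Agent.NPC.H78TSV
  Pool.Agent.H78R3.TSV Pool.Agent.TH662.AP

section

variable {α : Type} [TEnc α]

theorem poly_rawMul {R R' : α → List (Bool × List ℕ)} (hR : Poly R) (hR' : Poly R') :
    Poly (fun a => rawMul (R a) (R' a)) := by
  unfold rawMul
  refine Poly.flatMap (F := fun a p => (R' a).map fun q => (p.1 ^^ q.1, p.2 ++ q.2)) hR ?_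
  refine Poly.map (F := fun (x : α × (Bool × List ℕ)) (q : Bool × List ℕ) =>
    (x.2.1 ^^ q.1, x.2.2 ++ q.2)) (hR'.comp (Poly.fst Poly.id)) ?_
  exact Poly.pair (Poly.xor (Poly.fst (Poly.snd (Poly.fst Poly.id))) (Poly.fst (Poly.snd Poly.id)))
    (Poly.append (Poly.snd (Poly.snd (Poly.fst Poly.id))) (Poly.snd (Poly.snd Poly.id)))

theorem poly_rawT {t : α → QT} (ht : Poly t) : Poly (fun a => rawT (t a)) := by
  unfold rawT
  refine Poly.map (F := fun a (_ : ℕ) => (decide ((t a).1 < 0), [(t a).2.1, (t a).2.2]))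
    (Poly.filter (p := fun a r => decide (r < (t a).1.natAbs)) (Poly.const (List.range 8)) ?_) ?_
  · exact Poly.decide_lt (Poly.snd Poly.id) ((Poly.natAbs (Poly.fst ht)).comp (Poly.fst Poly.id))
  · have h1 : Poly (fun a => decide ((t a).1 < 0)) := poly_isNeg (Poly.fst ht)
    have h2 : Poly (fun a => [(t a).2.1, (t a).2.2]) :=
      Poly.cons (Poly.fst (Poly.snd ht)) (Poly.cons (Poly.snd (Poly.snd ht)) (Poly.const []))
    exact (Poly.pair h1 h2).comp (Poly.fst Poly.id)

theorem poly_rawC {g : α → QC} (hg : Poly g) : Poly (fun a => rawC (g a)) :=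
  Poly.append (Poly.append (poly_rawT (Poly.fst hg)) (poly_rawT (Poly.fst (Poly.snd hg))))
    (poly_rawT (Poly.snd (Poly.snd hg)))

theorem poly_rawG {n : α → ℕ} {G : α → List QC} (hn : UPoly n) (hG : Poly G) :
    Poly (fun a => rawG (n a) (G a)) := by
  unfold rawG
  refine Poly.append ?_ ?_
  · exact Poly.flatMap (F := fun _ g => rawMul (rawC g) (rawC g)) hG
      (poly_rawMul (poly_rawC (Poly.snd Poly.id)) (poly_rawC (Poly.snd Poly.id)))
  · refine Poly.map (F := fun a i => (false, [i, i, n a, n a])) hn.range ?_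
    have h1 : Poly (fun p : α × ℕ => p.2) := Poly.snd Poly.id
    have h2 : Poly (fun p : α × ℕ => n p.1) := hn.toPoly.comp (Poly.fst Poly.id)
    exact Poly.pair (Poly.const false) (Poly.cons h1 (Poly.cons h1 (Poly.cons h2
      (Poly.cons h2 (Poly.const [])))))

/-- The instance of a system. -/
def inst (S : List ER.Con) : ℕ × PolyData × PolyData :=
  (hn (bsys S) + 1, fmon (hn (bsys S) + 1),
    collect (hn (bsys S) + 1) (rawG (hn (bsys S)) (hsys (bsys S))))

theorem poly_inst {S : α → List ER.Con} (hS : Poly S) : Poly (fun a => inst (S a)) := by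
  have hT := poly_bsys hS
  have hG := poly_hsys hT
  have hN : UPoly (fun a => hn (bsys (S a)) + 1) := UPoly.add (upoly_hn hT) (UPoly.const 1)
  exact Poly.pair hN.toPoly (Poly.pair (poly_collect hN (Poly.const _))
    (poly_collect hN (poly_rawG (upoly_hn hT) hG)))

end

theorem spec {n : ℕ} (h1n : 1 ≤ n) {G : List QC} (hG : ∀ g ∈ G, GOk n g) {P : Prop}
    (hP : P ↔ HomSat n G) :
    ∃ n' f g, (n + 1, fmon (n + 1), collect (n + 1) (rawG n G)) = (n', f, g) ∧
      2 ≤ n' ∧ f.Valid n' ∧ g.Valid n' ∧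
      (∀ x : Fin n' → ℝ, pval x f = xt x 0 ^ 2 * xt x 1 ^ 2) ∧
      (∀ t ∈ g, t.2.sum = 4) ∧
      (P ↔ IsAffineProjection n' f g) ∧ (P ↔ IsLinearProjection n' f g) := by
  refine ⟨_, _, _, rfl, Nat.succ_le_succ h1n, collect_valid _ _, collect_valid _ _, fun x => ?_,
    collect_deg _ (fun p hp => (mem_rawG hG hp).2) (fun p hp => (mem_rawG hG hp).1), ?_, ?_⟩
  · rw [pval_fmon (Nat.succ_le_succ h1n), xt, xt, dif_pos (show 0 < n + 1 by omega),
      dif_pos (show 1 < n + 1 by omega)]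
  · rw [hP]
    refine ⟨fun h => ?_, homSat_of_affine h1n hG⟩
    obtain ⟨A, hA⟩ := proj_of_homSat h1n hG h
    exact ⟨A, 0, fun x => by rw [add_zero]; exact hA x⟩
  · rw [hP]
    exact ⟨proj_of_homSat h1n hG, homSat_of_proj h1n hG⟩

/-- For every language of `∃ℝ` there is a polynomial-time reduction to affine projection producing
instances of a special form. -/
theorem main (L : Set (List Bool)) (hL : InER L) :
    ∃ F : List Bool → ℕ × PolyData × PolyData, PolyTime (fun w => bits (F w)) ∧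
      ∀ w, ∃ n f g, F w = (n, f, g) ∧ 2 ≤ n ∧ f.Valid n ∧ g.Valid n ∧
        (∀ x : Fin n → ℝ, pval x f = xt x 0 ^ 2 * xt x 1 ^ 2) ∧
        (∀ t ∈ g, t.2.sum = 4) ∧
        (w ∈ L ↔ IsAffineProjection n f g) ∧ (w ∈ L ↔ IsLinearProjection n f g) := by
  obtain ⟨g, hg, hL⟩ := hL
  have h1 : PC (id : List Bool → List Bool) (bits : Fm → List Bool) g :=
    H642R2.TMSim.polyTime_toPC hg
  have h2 : Poly (fun φ : Fm => inst (sysOf φ)) := poly_inst (poly_sysOf Poly.id)
  have h3 : PC (id : List Bool → List Bool) (bits : ℕ × PolyData × PolyData → List Bool)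
      (fun x => inst (sysOf (g x))) :=
    PC.comp (g := fun φ : Fm => inst (sysOf φ)) (eb := (bits : Fm → List Bool)) h2 h1
  have h4 : PC (id : List Bool → List Bool) (id : List Bool → List Bool)
    (fun x => bits (inst (sysOf (g x)))) := h3
  refine ⟨fun x => inst (sysOf (g x)), PC.toPolyTime h4, fun w => ?_⟩
  have hsat : w ∈ L ↔ HomSat (hn (bsys (sysOf (g w)))) (hsys (bsys (sysOf (g w)))) := by
    rw [hL, ← sat_sysOf, homSat_iff]
  exact spec (by unfold hn; omega) (hsys_ok (bsys (sysOf (g w)))) hsat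

end Pool.Agent.NPC.TH662AP
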